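import Mathlib
import Pool.Agent.H48.LDP.Psa
import Pool.Agent.H48.LD.Main
import Pool.Agent.H48.LD.Small
import Pool.Agent.H76.CR.ZFacts
import Pool.Agent.H76.PS.Cmpct
import Pool.Agent.H48.LDP.Fin2

/-!
# Rem: the prime number theorem with few zeros, every size of the error

For `0 ≤ D ≤ κ log x` there is a finite set `Z` of zeros, at most `e^(C E)` of them with multiplicity, such that
`ψ(x) - x + ∑_Z m x^ρ/ρ` is at most `x e^(C E - D)`, `E = 1 + D^(5/2)/(log x)^(3/2) + D^(5/3) (log (D+3))^(1/3)/log x`.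

PROOF.  `psa` with `L = log x`, `b = D + 2 log L + 2`, `T = exp (2b)`, `η = 5b/L`; the number of zeros by `mainS`.
-/

set_option autoImplicit false

open Complex

namespace Pool.Agent.H76.RM

open Pool.Agent.H6 Pool.Agent.H6.Win Pool.Agent.H48.LDP

/-- The order of a function which commutes with complex conjugation. -/
private theorem rem_order_conj {f : ℂ → ℂ} (hf : ∀ z, f ((starRingEnd ℂ) z) = (starRingEnd ℂ) (f z))
    {u : ℂ} (hu : AnalyticAt ℂ f u) (hu' : AnalyticAt ℂ f ((starRingEnd ℂ) u)) :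
    analyticOrderAt f ((starRingEnd ℂ) u) = analyticOrderAt f u := by
  have htend : Filter.Tendsto (starRingEnd ℂ) (nhds ((starRingEnd ℂ) u)) (nhds u) := by
    have h1 := (continuous_conj.tendsto ((starRingEnd ℂ) u))
    rwa [Complex.conj_conj] at h1
  by_cases htop : analyticOrderAt f u = ⊤
  · rw [htop, analyticOrderAt_eq_top]
    rw [analyticOrderAt_eq_top] at htop
    filter_upwards [htend.eventually htop] with z hz
    have h1 := hf z
    rw [hz] at h1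
    have h2 := congrArg (starRingEnd ℂ) h1
    rwa [Complex.conj_conj, map_zero, eq_comm] at h2
  · obtain ⟨n, hn⟩ := ENat.ne_top_iff_exists.1 htop
    rw [← hn, hu'.analyticOrderAt_eq_natCast]
    obtain ⟨g, hg, hg0, hfg⟩ := hu.analyticOrderAt_eq_natCast.1 hn.symm
    refine ⟨fun z => (starRingEnd ℂ) (g ((starRingEnd ℂ) z)), ?_, ?_, ?_⟩
    · rw [Complex.analyticAt_iff_eventually_differentiableAt]
      rw [Complex.analyticAt_iff_eventually_differentiableAt] at hg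
      filter_upwards [htend.eventually hg] with z hz
      have h1 := hz.conj_conj
      rw [Complex.conj_conj] at h1
      exact h1
    · change (starRingEnd ℂ) (g ((starRingEnd ℂ) ((starRingEnd ℂ) u))) ≠ 0
      rw [Complex.conj_conj]
      exact (map_ne_zero _).2 hg0
    · filter_upwards [htend.eventually hfg] with z hz
      have h1 := hf z
      rw [hz] at h1
      have h2 := congrArg (starRingEnd ℂ) h1
      rw [Complex.conj_conj, smul_eq_mul, map_mul, map_pow, map_sub, Complex.conj_conj] at h2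
      rw [← h2]
      rfl

private theorem rem_zeta_an {u : ℂ} (hu : u ≠ 1) : AnalyticAt ℂ riemannZeta u := by
  have h1 : DifferentiableOn ℂ riemannZeta {1}ᶜ := fun z hz =>
    (differentiableAt_riemannZeta hz).differentiableWithinAt
  exact h1.analyticAt (isOpen_compl_singleton.mem_nhds hu)

private theorem rem_mult_conj {u : ℂ} (hu : u ≠ 1) :
    analyticOrderNatAt riemannZeta ((starRingEnd ℂ) u) = analyticOrderNatAt riemannZeta u := by
  have hu' : (starRingEnd ℂ) u ≠ 1 := by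
    intro h
    apply hu
    rw [← Complex.conj_conj u, h, map_one]
  unfold analyticOrderNatAt
  rw [rem_order_conj riemannZeta_conj (rem_zeta_an hu) (rem_zeta_an hu')]

/-- The trivial estimate. -/
private theorem rem_triv {x : ℝ} (hx : 1 ≤ x) :
    ‖((∑ n ∈ Finset.Icc 1 ⌊x⌋₊, ArithmeticFunction.vonMangoldt n : ℝ) : ℂ) - x‖ ≤
      x * (Real.log x + 1) := by
  have hlog : 0 ≤ Real.log x := Real.log_nonneg hx
  have h1 : ∑ n ∈ Finset.Icc 1 ⌊x⌋₊, ArithmeticFunction.vonMangoldt n ≤ x * Real.log x := by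
    have h2 : ∀ n ∈ Finset.Icc 1 ⌊x⌋₊, ArithmeticFunction.vonMangoldt n ≤ Real.log x := by
      intro n hn
      rw [Finset.mem_Icc] at hn
      refine ArithmeticFunction.vonMangoldt_le_log.trans (Real.log_le_log ?_ ?_)
      · exact_mod_cast hn.1
      · exact (Nat.cast_le.2 hn.2).trans (Nat.floor_le (by linarith))
    refine (Finset.sum_le_sum h2).trans ?_
    rw [Finset.sum_const, Nat.card_Icc, Nat.add_sub_cancel, nsmul_eq_mul]
    exact mul_le_mul_of_nonneg_right (Nat.floor_le (by linarith)) hlog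
  have h0 : 0 ≤ ∑ n ∈ Finset.Icc 1 ⌊x⌋₊, ArithmeticFunction.vonMangoldt n :=
    Finset.sum_nonneg fun _ _ => ArithmeticFunction.vonMangoldt_nonneg
  refine (norm_sub_le _ _).trans ?_
  rw [Complex.norm_real, Complex.norm_real, Real.norm_of_nonneg h0,
    Real.norm_of_nonneg (by linarith)]
  linarith

/-- The total multiplicity of the zeros on both sides of the real axis. -/
private theorem rem_count {K T δ : ℝ}
    (hK : ∀ S : Finset ℂ, (∀ ρ ∈ S, riemannZeta ρ = 0 ∧ 0 < ρ.im ∧ ρ.im ≤ T ∧ 1 - δ ≤ ρ.re) →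
      ∑ ρ ∈ S, (analyticOrderNatAt riemannZeta ρ : ℝ) ≤ K)
    (h0 : ∀ s : ℂ, riemannZeta s = 0 → |s.im| ≤ 0 → s.re < 1 - δ) (S : Finset ℂ)
    (hS : ∀ u ∈ S, zetaPole u = 0 ∧ 1 - δ ≤ u.re ∧ |u.im| ≤ T) : (mul S : ℝ) ≤ 2 * K := by
  classical
  have hne : ∀ u ∈ S, u ≠ 1 := by
    rintro u hu rfl
    have h1 := (hS _ hu).1
    unfold zetaPole at h1
    rw [Function.update_self] at h1
    exact one_ne_zero h1
  have hz : ∀ u ∈ S, riemannZeta u = 0 := fun u hu =>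
    (Pool.Agent.H76.CR.zetaPole_eq_zero_iff (hne u hu)).1 (hS u hu).1
  have him : ∀ u ∈ S, u.im ≠ 0 := by
    intro u hu h1
    have h2 := h0 u (hz u hu) (by rw [h1, abs_zero])
    exact absurd h2 (not_lt.2 (hS u hu).2.1)
  have h1 : (mul S : ℝ) = ∑ u ∈ S, (analyticOrderNatAt riemannZeta u : ℝ) := by
    unfold mul
    push_cast
    refine Finset.sum_congr rfl fun u hu => ?_
    rw [Pool.Agent.H76.CR.zord_eq (hne u hu)]
  rw [h1, ← Finset.sum_filter_add_sum_filter_not S (fun u => 0 < u.im), two_mul]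
  refine add_le_add (hK _ fun u hu => ?_) ?_
  · rw [Finset.mem_filter] at hu
    exact ⟨hz u hu.1, hu.2, (le_abs_self _).trans (hS u hu.1).2.2, (hS u hu.1).2.1⟩
  · have h2 : ∑ u ∈ S.filter (fun u => ¬ 0 < u.im), (analyticOrderNatAt riemannZeta u : ℝ) =
        ∑ u ∈ (S.filter (fun u => ¬ 0 < u.im)).image (starRingEnd ℂ),
          (analyticOrderNatAt riemannZeta u : ℝ) := by
      rw [Finset.sum_image fun a _ b _ hab => (starRingEnd ℂ).injective hab]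
      refine Finset.sum_congr rfl fun u hu => ?_
      rw [rem_mult_conj (hne u (Finset.mem_filter.1 hu).1)]
    rw [h2]
    refine hK _ fun v hv => ?_
    rw [Finset.mem_image] at hv
    obtain ⟨u, hu, rfl⟩ := hv
    rw [Finset.mem_filter] at hu
    have h3 : u.im < 0 := lt_of_le_of_ne (not_lt.1 hu.2) (him u hu.1)
    rw [Complex.conj_im, Complex.conj_re]
    refine ⟨Pool.Agent.H76.PS.zeta_conj_zero (hz u hu.1), by linarith, ?_, (hS u hu.1).2.1⟩
    have h4 := (hS u hu.1).2.2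
    rw [abs_of_neg h3] at h4
    exact h4

/-- The parameters. -/
private theorem rem_ev (c : ℝ) : ∃ Y : ℝ, ∀ L : ℝ, Y ≤ L → 400 ≤ L ∧ 1 ≤ Real.log L ∧
    (8 * Real.log L + 8) ^ 2 ≤ L ∧ (5 / c) ^ 2 ≤ L := by
  have h1 : ∀ᶠ L : ℝ in Filter.atTop, Real.log L ≤ 1 / 16 * L ^ (1 / 2 : ℝ) := by
    have h2 := (isLittleO_log_rpow_atTop (r := 1 / 2) (by norm_num)).bound
      (c := 1 / 16) (by norm_num)
    filter_upwards [h2, Filter.eventually_ge_atTop 1] with y hy hy1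
    rw [Real.norm_of_nonneg (Real.log_nonneg hy1),
      Real.norm_of_nonneg (Real.rpow_nonneg (by linarith) _)] at hy
    exact hy
  obtain ⟨Y, hY⟩ := Filter.eventually_atTop.1 ((h1.and (Filter.eventually_ge_atTop 400)).and
    (Filter.eventually_ge_atTop ((5 / c) ^ 2)))
  refine ⟨Y, fun L hL => ?_⟩
  obtain ⟨⟨h4, h5⟩, h6⟩ := hY L hL
  have hL0 : 0 < L := by linarith
  have hl : 1 ≤ Real.log L := by
    rw [Real.le_log_iff_exp_le hL0]
    have := Real.exp_one_lt_three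
    linarith
  refine ⟨h5, hl, ?_, h6⟩
  have h7 : (L ^ (1 / 2 : ℝ)) ^ 2 = L := by
    rw [← Real.rpow_natCast, ← Real.rpow_mul hL0.le]
    norm_num
  have h8 : 8 * Real.log L + 8 ≤ L ^ (1 / 2 : ℝ) := by linarith
  calc (8 * Real.log L + 8) ^ 2 ≤ (L ^ (1 / 2 : ℝ)) ^ 2 := pow_le_pow_left₀ (by linarith) h8 2
    _ = L := h7

/-- The sizes of `b = D + 2 log L + 2`. -/
private theorem rem_b {c L D b : ℝ} (hc : 0 < c) (hc2 : c ≤ 1 / 2) (hL : 400 ≤ L)
    (hl : 1 ≤ Real.log L) (h8 : (8 * Real.log L + 8) ^ 2 ≤ L) (h5c : (5 / c) ^ 2 ≤ L) (hD : 0 ≤ D)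
    (hDL : D ≤ c / 160 * L) (hb : b = D + 2 * Real.log L + 2) :
    4 ≤ b ∧ 2 * b ≤ L / 4 ∧ 5 * b / L ≤ 1 / 8 ∧ 2 * (5 * b / L) ≤ c := by
  have hL0 : 0 < L := by linarith
  obtain ⟨s, hs⟩ : ∃ s : ℝ, s = √L := ⟨_, rfl⟩
  have hs2 : s ^ 2 = L := by rw [hs]; exact Real.sq_sqrt hL0.le
  have hs0 : 0 < s := by rw [hs]; exact Real.sqrt_pos.2 hL0
  have hls : 8 * Real.log L + 8 ≤ s := by
    have h9 : (8 * Real.log L + 8) ^ 2 ≤ s ^ 2 := by rw [hs2]; exact h8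
    exact (pow_le_pow_iff_left₀ (by linarith) hs0.le (by norm_num)).1 h9
  have hs20 : 20 ≤ s := by nlinarith
  have h5s : 5 ≤ c * s := by
    have h1 : (5 / c) ^ 2 ≤ s ^ 2 := by rw [hs2]; exact h5c
    have h2 : 5 / c ≤ s := (pow_le_pow_iff_left₀ (by positivity) hs0.le (by norm_num)).1 h1
    rw [div_le_iff₀ hc] at h2
    linarith
  have hsL : 20 * s ≤ L := by nlinarith
  have hDL2 : D ≤ 1 / 320 * L := hDL.trans (mul_le_mul_of_nonneg_right (by linarith) hL0.le)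
  refine ⟨by rw [hb]; linarith, ?_, ?_, ?_⟩
  · rw [hb]
    linarith
  · rw [div_le_iff₀ hL0, hb]
    linarith
  · rw [mul_div_assoc', div_le_iff₀ hL0, hb]
    have h3 : 5 * s ≤ c * L := by
      have : c * L = (c * s) * s := by rw [← hs2]; ring
      rw [this]
      exact mul_le_mul_of_nonneg_right h5s hs0.le
    linarith

/-- The number of zeros. -/
private theorem rem_expo {L D b : ℝ} (hL : 400 ≤ L) (hl : 1 ≤ Real.log L)
    (h8 : (8 * Real.log L + 8) ^ 2 ≤ L) (hD : 0 ≤ D) (hb : b = D + 2 * Real.log L + 2) :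
    (2 * (5 * b / L)) ^ (3 / 2 : ℝ) * Real.log (Real.exp (2 * b) + 2) +
      2 * (5 * b / L) * (Real.log (Real.exp (2 * b) + 2) ^ (2 / 3 : ℝ) *
        Real.log (Real.log (Real.exp (2 * b) + 2)) ^ (1 / 3 : ℝ)) ≤
      768 * (1 + D ^ (5 / 2 : ℝ) / L ^ (3 / 2 : ℝ) +
        D ^ (5 / 3 : ℝ) * Real.log (D + 3) ^ (1 / 3 : ℝ) / L) := by
  have hL0 : 0 < L := by linarith
  have hb4 : 4 ≤ b := by rw [hb]; linarith
  have hb0 : 0 < b := by linarith
  obtain ⟨a, ha⟩ : ∃ a : ℝ, a = 2 * b := ⟨_, rfl⟩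
  obtain ⟨m, hm⟩ : ∃ m : ℝ, m = 2 * Real.log L + 2 := ⟨_, rfl⟩
  have ha0 : 0 < a := by linarith
  have hm4 : 4 ≤ m := by linarith
  have hmL : (4 * m) ^ 2 ≤ L := by
    have : 4 * m = 8 * Real.log L + 8 := by rw [hm]; ring
    rw [this]
    exact h8
  have hE : a + 1 ≤ Real.exp a := Real.add_one_le_exp a
  have hE0 : 0 < Real.exp a := Real.exp_pos a
  rw [← ha]
  have h1 : a ≤ Real.log (Real.exp a + 2) := by
    rw [Real.le_log_iff_exp_le (by linarith)]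
    linarith
  have h2 : Real.log (Real.exp a + 2) ≤ 2 * a := by
    rw [Real.log_le_iff_le_exp (by linarith), two_mul, Real.exp_add]
    nlinarith
  have hla : 1 ≤ Real.log a := by
    rw [Real.le_log_iff_exp_le ha0]
    have := Real.exp_one_lt_three
    linarith
  have h3 : Real.log (Real.log (Real.exp a + 2)) ≤ 2 * Real.log a := by
    have h4 : Real.log (Real.log (Real.exp a + 2)) ≤ Real.log (a * a) :=
      Real.log_le_log (by linarith) (h2.trans (by nlinarith))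
    rw [Real.log_mul ha0.ne' ha0.ne'] at h4
    linarith
  have h4 : 1 ≤ Real.log (Real.log (Real.exp a + 2)) :=
    hla.trans (Real.log_le_log ha0 h1)
  -- the powers of `b`
  have hbm : b = D + m := by rw [hb, hm]; ring
  have hLL : L ^ (3 / 2 : ℝ) = L * L ^ (1 / 2 : ℝ) := by
    conv_rhs => rw [← Real.rpow_one L]
    rw [← Real.rpow_mul hL0.le, ← Real.rpow_add hL0]
    norm_num
  have hm0 : 0 < 4 * m := by linarith
  have hp1 : b ^ (5 / 2 : ℝ) ≤ 6 * D ^ (5 / 2 : ℝ) + L ^ (3 / 2 : ℝ) := by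
    have hD52 : 0 ≤ D ^ (5 / 2 : ℝ) := Real.rpow_nonneg hD _
    have hL32 : 0 ≤ L ^ (3 / 2 : ℝ) := Real.rpow_nonneg hL0.le _
    rcases le_total m D with h | h
    · have h5 : b ^ (5 / 2 : ℝ) ≤ (2 * D) ^ (5 / 2 : ℝ) :=
        Real.rpow_le_rpow hb0.le (by linarith) (by norm_num)
      have h6 : (2 * D) ^ (5 / 2 : ℝ) = 2 ^ (5 / 2 : ℝ) * D ^ (5 / 2 : ℝ) :=
        Real.mul_rpow (by norm_num) hD
      have h7 : (2 : ℝ) ^ (5 / 2 : ℝ) ≤ 6 := by
        have h9 : ((2 : ℝ) ^ (5 / 2 : ℝ)) ^ 2 = 32 := by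
          rw [← Real.rpow_natCast, ← Real.rpow_mul (by norm_num)]
          norm_num
        nlinarith [Real.rpow_nonneg (by norm_num : (0 : ℝ) ≤ 2) (5 / 2 : ℝ)]
      rw [h6] at h5
      nlinarith
    · have h5 : b ^ (5 / 2 : ℝ) ≤ (4 * m) ^ (5 / 2 : ℝ) :=
        Real.rpow_le_rpow hb0.le (by linarith) (by norm_num)
      have h6 : (4 * m) ^ (5 / 2 : ℝ) = ((4 * m) ^ 2) ^ (5 / 4 : ℝ) := by
        rw [← Real.rpow_natCast, ← Real.rpow_mul hm0.le]
        norm_num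
      have h7 : ((4 * m) ^ 2) ^ (5 / 4 : ℝ) ≤ L ^ (5 / 4 : ℝ) :=
        Real.rpow_le_rpow (by positivity) hmL (by norm_num)
      have h9 : L ^ (5 / 4 : ℝ) ≤ L ^ (3 / 2 : ℝ) :=
        Real.rpow_le_rpow_of_exponent_le (by linarith) (by norm_num)
      rw [h6] at h5
      linarith
  have hp2 : b ^ (5 / 3 : ℝ) * Real.log a ^ (1 / 3 : ℝ) ≤
      4 * (D ^ (5 / 3 : ℝ) * Real.log (D + 3) ^ (1 / 3 : ℝ)) + L := by
    have hD53 : 0 ≤ D ^ (5 / 3 : ℝ) := Real.rpow_nonneg hD _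
    have hlD : 0 ≤ Real.log (D + 3) := Real.log_nonneg (by linarith)
    have hlD3 : 0 ≤ Real.log (D + 3) ^ (1 / 3 : ℝ) := Real.rpow_nonneg hlD _
    rcases le_total m D with h | h
    · have h5 : b ^ (5 / 3 : ℝ) ≤ 2 ^ (5 / 3 : ℝ) * D ^ (5 / 3 : ℝ) := by
        rw [← Real.mul_rpow (by norm_num) hD]
        exact Real.rpow_le_rpow hb0.le (by linarith) (by norm_num)
      have h6 : Real.log a ≤ 2 * Real.log (D + 3) := by
        have h7 : Real.log a ≤ Real.log ((D + 3) * (D + 3)) :=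
          Real.log_le_log ha0 (by nlinarith)
        rw [Real.log_mul (by linarith) (by linarith)] at h7
        linarith
      have h7 : Real.log a ^ (1 / 3 : ℝ) ≤ 2 ^ (1 / 3 : ℝ) * Real.log (D + 3) ^ (1 / 3 : ℝ) := by
        rw [← Real.mul_rpow (by norm_num) hlD]
        exact Real.rpow_le_rpow (by linarith) h6 (by norm_num)
      have h9 : (2 : ℝ) ^ (5 / 3 : ℝ) * 2 ^ (1 / 3 : ℝ) = 4 := by
        rw [← Real.rpow_add (by norm_num)]
        norm_num
      calc b ^ (5 / 3 : ℝ) * Real.log a ^ (1 / 3 : ℝ)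
          ≤ (2 ^ (5 / 3 : ℝ) * D ^ (5 / 3 : ℝ)) * (2 ^ (1 / 3 : ℝ) * Real.log (D + 3) ^ (1 / 3 : ℝ)) :=
            mul_le_mul h5 h7 (Real.rpow_nonneg (by linarith) _) (by positivity)
        _ = (2 ^ (5 / 3 : ℝ) * 2 ^ (1 / 3 : ℝ)) * (D ^ (5 / 3 : ℝ) *
            Real.log (D + 3) ^ (1 / 3 : ℝ)) := by ring
        _ = 4 * (D ^ (5 / 3 : ℝ) * Real.log (D + 3) ^ (1 / 3 : ℝ)) := by rw [h9]
        _ ≤ _ := by linarith
    · have h5 : b ^ (5 / 3 : ℝ) ≤ (4 * m) ^ (5 / 3 : ℝ) :=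
        Real.rpow_le_rpow hb0.le (by linarith) (by norm_num)
      have h6 : Real.log a ≤ 4 * m := by
        have := Real.log_le_sub_one_of_pos ha0
        linarith
      have h7 : Real.log a ^ (1 / 3 : ℝ) ≤ (4 * m) ^ (1 / 3 : ℝ) :=
        Real.rpow_le_rpow (by linarith) h6 (by norm_num)
      have h9 : (4 * m) ^ (5 / 3 : ℝ) * (4 * m) ^ (1 / 3 : ℝ) = (4 * m) ^ 2 := by
        rw [← Real.rpow_add hm0, ← Real.rpow_natCast]
        norm_num
      have h10 : b ^ (5 / 3 : ℝ) * Real.log a ^ (1 / 3 : ℝ) ≤ (4 * m) ^ 2 := by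
        rw [← h9]
        exact mul_le_mul h5 h7 (Real.rpow_nonneg (by linarith) _) (Real.rpow_nonneg hm0.le _)
      have h11 : 0 ≤ D ^ (5 / 3 : ℝ) * Real.log (D + 3) ^ (1 / 3 : ℝ) := mul_nonneg hD53 hlD3
      linarith
  -- the first term
  have hq : 2 * (5 * b / L) = 10 * b / L := by ring
  have hq0 : 0 ≤ 10 * b / L := by positivity
  have hT1 : (2 * (5 * b / L)) ^ (3 / 2 : ℝ) * Real.log (Real.exp a + 2) ≤
      128 * (b ^ (5 / 2 : ℝ) / L ^ (3 / 2 : ℝ)) := by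
    have h5 : (10 * b / L) ^ (3 / 2 : ℝ) = 10 ^ (3 / 2 : ℝ) * b ^ (3 / 2 : ℝ) / L ^ (3 / 2 : ℝ) := by
      rw [Real.div_rpow (by positivity) hL0.le, Real.mul_rpow (by norm_num) hb0.le]
    have h6 : (10 : ℝ) ^ (3 / 2 : ℝ) ≤ 32 := by
      have h9 : ((10 : ℝ) ^ (3 / 2 : ℝ)) ^ 2 = 1000 := by
        rw [← Real.rpow_natCast, ← Real.rpow_mul (by norm_num)]
        norm_num
      nlinarith [Real.rpow_nonneg (by norm_num : (0 : ℝ) ≤ 10) (3 / 2 : ℝ)]
    have h7 : b ^ (3 / 2 : ℝ) * b = b ^ (5 / 2 : ℝ) := by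
      conv_lhs => rw [← Real.rpow_one b]
      rw [← Real.rpow_mul hb0.le, ← Real.rpow_add hb0]
      norm_num
    have h9 : 0 < L ^ (3 / 2 : ℝ) := Real.rpow_pos_of_pos hL0 _
    have h10 : 0 ≤ b ^ (3 / 2 : ℝ) := Real.rpow_nonneg hb0.le _
    rw [hq]
    calc (10 * b / L) ^ (3 / 2 : ℝ) * Real.log (Real.exp a + 2)
        ≤ (10 * b / L) ^ (3 / 2 : ℝ) * (4 * b) :=
          mul_le_mul_of_nonneg_left (by linarith) (Real.rpow_nonneg hq0 _)
      _ = 10 ^ (3 / 2 : ℝ) * (4 * (b ^ (3 / 2 : ℝ) * b / L ^ (3 / 2 : ℝ))) := by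
          rw [h5]
          ring
      _ ≤ 32 * (4 * (b ^ (3 / 2 : ℝ) * b / L ^ (3 / 2 : ℝ))) :=
          mul_le_mul_of_nonneg_right h6 (by positivity)
      _ = _ := by rw [h7]; ring
  have hT2 : 2 * (5 * b / L) * (Real.log (Real.exp a + 2) ^ (2 / 3 : ℝ) *
      Real.log (Real.log (Real.exp a + 2)) ^ (1 / 3 : ℝ)) ≤
      32 * (b ^ (5 / 3 : ℝ) * Real.log a ^ (1 / 3 : ℝ) / L) := by
    have h5 : Real.log (Real.exp a + 2) ^ (2 / 3 : ℝ) ≤ 4 ^ (2 / 3 : ℝ) * b ^ (2 / 3 : ℝ) := by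
      rw [← Real.mul_rpow (by norm_num) hb0.le]
      exact Real.rpow_le_rpow (by linarith) (by linarith) (by norm_num)
    have h6 : Real.log (Real.log (Real.exp a + 2)) ^ (1 / 3 : ℝ) ≤
        2 ^ (1 / 3 : ℝ) * Real.log a ^ (1 / 3 : ℝ) := by
      rw [← Real.mul_rpow (by norm_num) (by linarith)]
      exact Real.rpow_le_rpow (by linarith) h3 (by norm_num)
    have h7 : (4 : ℝ) ^ (2 / 3 : ℝ) * 2 ^ (1 / 3 : ℝ) ≤ 16 / 5 := by
      have h9 : ((4 : ℝ) ^ (2 / 3 : ℝ) * 2 ^ (1 / 3 : ℝ)) ^ 3 = 32 := by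
        rw [mul_pow, ← Real.rpow_natCast, ← Real.rpow_natCast, ← Real.rpow_mul (by norm_num),
          ← Real.rpow_mul (by norm_num)]
        norm_num
      by_contra h10
      push Not at h10
      have h11 : (16 / 5 : ℝ) ^ 3 < ((4 : ℝ) ^ (2 / 3 : ℝ) * 2 ^ (1 / 3 : ℝ)) ^ 3 :=
        pow_lt_pow_left₀ h10 (by norm_num) (by norm_num)
      rw [h9] at h11
      norm_num at h11
    have h9 : b * b ^ (2 / 3 : ℝ) = b ^ (5 / 3 : ℝ) := by
      conv_lhs => rw [← Real.rpow_one b]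
      rw [← Real.rpow_mul hb0.le, ← Real.rpow_add hb0]
      norm_num
    have h10 : 0 ≤ b ^ (2 / 3 : ℝ) := Real.rpow_nonneg hb0.le _
    have h11 : 0 ≤ Real.log a ^ (1 / 3 : ℝ) := Real.rpow_nonneg (by linarith) _
    have h12 : 0 ≤ Real.log (Real.log (Real.exp a + 2)) ^ (1 / 3 : ℝ) :=
      Real.rpow_nonneg (by linarith) _
    rw [hq]
    calc 10 * b / L * (Real.log (Real.exp a + 2) ^ (2 / 3 : ℝ) *
          Real.log (Real.log (Real.exp a + 2)) ^ (1 / 3 : ℝ))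
        ≤ 10 * b / L * ((4 ^ (2 / 3 : ℝ) * b ^ (2 / 3 : ℝ)) *
            (2 ^ (1 / 3 : ℝ) * Real.log a ^ (1 / 3 : ℝ))) :=
          mul_le_mul_of_nonneg_left (mul_le_mul h5 h6 h12 (by positivity)) hq0
      _ = (4 ^ (2 / 3 : ℝ) * 2 ^ (1 / 3 : ℝ)) * (10 * (b * b ^ (2 / 3 : ℝ) *
            Real.log a ^ (1 / 3 : ℝ) / L)) := by ring
      _ ≤ 16 / 5 * (10 * (b * b ^ (2 / 3 : ℝ) * Real.log a ^ (1 / 3 : ℝ) / L)) :=
          mul_le_mul_of_nonneg_right h7 (by positivity)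
      _ = _ := by rw [h9]; ring
  have hL32 : 0 < L ^ (3 / 2 : ℝ) := Real.rpow_pos_of_pos hL0 _
  have hT3 : b ^ (5 / 2 : ℝ) / L ^ (3 / 2 : ℝ) ≤ 6 * (D ^ (5 / 2 : ℝ) / L ^ (3 / 2 : ℝ)) + 1 := by
    rw [div_le_iff₀ hL32]
    have : (6 * (D ^ (5 / 2 : ℝ) / L ^ (3 / 2 : ℝ)) + 1) * L ^ (3 / 2 : ℝ) =
        6 * D ^ (5 / 2 : ℝ) + L ^ (3 / 2 : ℝ) := by
      field_simp
    rw [this]
    exact hp1
  have hT4 : b ^ (5 / 3 : ℝ) * Real.log a ^ (1 / 3 : ℝ) / L ≤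
      4 * (D ^ (5 / 3 : ℝ) * Real.log (D + 3) ^ (1 / 3 : ℝ) / L) + 1 := by
    rw [div_le_iff₀ hL0]
    have : (4 * (D ^ (5 / 3 : ℝ) * Real.log (D + 3) ^ (1 / 3 : ℝ) / L) + 1) * L =
        4 * (D ^ (5 / 3 : ℝ) * Real.log (D + 3) ^ (1 / 3 : ℝ)) + L := by
      field_simp
    rw [this]
    exact hp2
  have hT5 : 0 ≤ D ^ (5 / 2 : ℝ) / L ^ (3 / 2 : ℝ) := div_nonneg (Real.rpow_nonneg hD _) hL32.le
  have hT6 : 0 ≤ D ^ (5 / 3 : ℝ) * Real.log (D + 3) ^ (1 / 3 : ℝ) / L :=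
    div_nonneg (mul_nonneg (Real.rpow_nonneg hD _)
      (Real.rpow_nonneg (Real.log_nonneg (by linarith)) _)) hL0.le
  linarith


/-- the exponent -/
private theorem rem_E {L D E : ℝ} (hL : 0 < L) (hD : 0 ≤ D) (hE : E = 1 + D ^ (5 / 2 : ℝ) / L ^ (3 / 2 : ℝ) +
    D ^ (5 / 3 : ℝ) * Real.log (D + 3) ^ (1 / 3 : ℝ) / L) : 1 ≤ E := by
  have h1 : 0 ≤ D ^ (5 / 2 : ℝ) / L ^ (3 / 2 : ℝ) :=
    div_nonneg (Real.rpow_nonneg hD _) (Real.rpow_nonneg hL.le _)
  have h2 : 0 ≤ D ^ (5 / 3 : ℝ) * Real.log (D + 3) ^ (1 / 3 : ℝ) / L :=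
    div_nonneg (mul_nonneg (Real.rpow_nonneg hD _)
      (Real.rpow_nonneg (Real.log_nonneg (by linarith)) _)) hL.le
  rw [hE]
  linarith

theorem remZ : ∃ κ C : ℝ, 0 < κ ∧ 0 < C ∧ ∀ x D E : ℝ, 3 ≤ x → 0 ≤ D → D ≤ κ * Real.log x →
    E = 1 + D ^ (5 / 2 : ℝ) / Real.log x ^ (3 / 2 : ℝ) +
      D ^ (5 / 3 : ℝ) * Real.log (D + 3) ^ (1 / 3 : ℝ) / Real.log x →
    ∃ Z : Finset ℂ, (∀ ρ ∈ Z, riemannZeta ρ = 0 ∧ 1 / 2 < ρ.re ∧ ρ.im ≠ 0) ∧
      (∑ ρ ∈ Z, (analyticOrderNatAt riemannZeta ρ : ℝ)) ≤ Real.exp (C * E) ∧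
      ‖((∑ n ∈ Finset.Icc 1 ⌊x⌋₊, ArithmeticFunction.vonMangoldt n : ℝ) : ℂ) - x +
          ∑ ρ ∈ Z, (analyticOrderNatAt riemannZeta ρ : ℂ) * ((x : ℂ) ^ ρ / ρ)‖ ≤
        x * Real.exp (C * E - D) := by
  obtain ⟨C0, hC0, hpsa⟩ := psa
  obtain ⟨A, B, hA, hB, hmain⟩ := Pool.Agent.H48.LD.mainS
  obtain ⟨c, hc0, hc2, hc⟩ := Pool.Agent.H48.LD.small 0
  obtain ⟨Y, hY⟩ := rem_ev c
  obtain ⟨X0, hX0⟩ : ∃ X0 : ℝ, X0 = max (max C0 (Real.exp Y)) 3 := ⟨_, rfl⟩
  have hX3 : 3 ≤ X0 := by rw [hX0]; exact le_max_right _ _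
  have hlogX0 : 0 < Real.log X0 := Real.log_pos (by linarith)
  obtain ⟨Q, hQ⟩ : ∃ Q : ℝ, Q = C0 * (1 + 2 * A) ^ 2 := ⟨_, rfl⟩
  have hQ1 : 1 ≤ Q := by
    have : 1 ≤ (1 + 2 * A) ^ 2 := by nlinarith
    rw [hQ]
    nlinarith
  have hlQ : 0 ≤ Real.log Q := Real.log_nonneg hQ1
  obtain ⟨C, hC⟩ : ∃ C : ℝ, C = Real.log Q + 1536 * B + 2 * (Real.log X0 + 1) := ⟨_, rfl⟩
  refine ⟨c / 160, C, by positivity, by rw [hC]; positivity, ?_⟩
  intro x D E hx hD hDx hE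
  have hx0 : 0 < x := by linarith
  have hlx : 0 < Real.log x := Real.log_pos (by linarith)
  have hE1 : 1 ≤ E := rem_E hlx hD hE
  rcases lt_or_ge x X0 with hlt | hge
  · -- small `x`
    refine ⟨∅, fun ρ hρ => absurd hρ (Finset.notMem_empty ρ), by
      rw [Finset.sum_empty]; exact (Real.exp_pos _).le, ?_⟩
    rw [Finset.sum_empty, add_zero]
    refine (rem_triv (by linarith)).trans (mul_le_mul_of_nonneg_left ?_ hx0.le)
    have hlx' : Real.log x ≤ Real.log X0 := Real.log_le_log hx0 hlt.le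
    have hD2 : D ≤ Real.log x := hDx.trans (by nlinarith)
    have h1 : Real.log x + 1 ≤ Real.exp (Real.log x) := Real.add_one_le_exp _
    refine h1.trans (Real.exp_le_exp.2 ?_)
    have h2 : C * 1 ≤ C * E := mul_le_mul_of_nonneg_left hE1 (by rw [hC]; positivity)
    have h3 : 2 * (Real.log X0 + 1) ≤ C := by
      rw [hC]
      have : 0 ≤ 1536 * B := by positivity
      linarith
    linarith
  · -- large `x`
    obtain ⟨L, hL⟩ : ∃ L : ℝ, L = Real.log x := ⟨_, rfl⟩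
    rw [← hL] at hE hDx hlx
    have hLY : Y ≤ L := by
      rw [hL, Real.le_log_iff_exp_le hx0]
      refine le_trans ?_ hge
      rw [hX0]
      exact (le_max_right _ _).trans (le_max_left _ _)
    have hxC : C0 ≤ x := by
      refine le_trans ?_ hge
      rw [hX0]
      exact (le_max_left _ _).trans (le_max_left _ _)
    obtain ⟨hL4, hl1, h8, h5c⟩ := hY L hLY
    obtain ⟨b, hb⟩ : ∃ b : ℝ, b = D + 2 * Real.log L + 2 := ⟨_, rfl⟩
    obtain ⟨hb4, hbL, hη8, hηc⟩ := rem_b hc0 hc2 hL4 hl1 h8 h5c hD hDx hb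
    have hexpo := rem_expo hL4 hl1 h8 hD hb
    rw [← hE] at hexpo
    obtain ⟨η, hη⟩ : ∃ η : ℝ, η = 5 * b / L := ⟨_, rfl⟩
    rw [← hη] at hη8 hηc hexpo
    have hη0 : 0 < η := by rw [hη]; positivity
    obtain ⟨P, hP⟩ : ∃ P : ℝ, P = A * Real.exp (B * (768 * E)) := ⟨_, rfl⟩
    have hP0 : 0 < P := by rw [hP]; positivity
    obtain ⟨N, hN⟩ : ∃ N : ℕ, N = ⌊2 * P⌋₊ := ⟨_, rfl⟩
    have hNP : (N : ℝ) ≤ 2 * P := by rw [hN]; exact Nat.floor_le (by linarith)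
    have hT3 : 3 ≤ Real.exp (2 * b) + 2 := by
      have := Real.add_one_le_exp (2 * b)
      linarith
    -- the number of zeros
    have hcount : ∀ S : Finset ℂ, (∀ u ∈ S, zetaPole u = 0 ∧ 1 - 2 * η ≤ u.re ∧
        |u.im| ≤ Real.exp (2 * b) + 2) → mul S ≤ N := by
      intro S hS
      rw [hN, Nat.le_floor_iff (by linarith)]
      refine rem_count (K := P) (T := Real.exp (2 * b) + 2) (δ := 2 * η)
        (fun S' hS' => ?_) (fun s hs h0 => ?_) S hS
      · refine (hmain (1 - 2 * η) (Real.exp (2 * b) + 2) S' (by linarith) (by linarith) hT3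
          fun ρ hρ => ?_).trans ?_
        · obtain ⟨h1, h2, h3, h4⟩ := hS' ρ hρ
          exact ⟨h1, h4, h2, h3⟩
        · rw [hP, sub_sub_cancel]
          exact mul_le_mul_of_nonneg_left (Real.exp_le_exp.2
            (mul_le_mul_of_nonneg_left hexpo hB.le)) hA.le
      · have h1 := hc s hs h0
        linarith
    obtain ⟨Z, hZ, hZN, hmn⟩ := hpsa x (Real.exp (2 * b)) η N hxC
      (by have := Real.add_one_le_exp (2 * b); linarith) (by
        rw [Real.rpow_def_of_pos hx0, ← hL]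
        exact Real.exp_le_exp.2 (by linarith)) hη0 hη8 hcount
    have hne : ∀ u ∈ Z, u ≠ 1 := by
      rintro u hu rfl
      have h1 := (hZ _ hu).1
      unfold zetaPole at h1
      rw [Function.update_self] at h1
      exact one_ne_zero h1
    have hze : ∀ u ∈ Z, riemannZeta u = 0 := fun u hu =>
      (Pool.Agent.H76.CR.zetaPole_eq_zero_iff (hne u hu)).1 (hZ u hu).1
    have hG1 : 1 ≤ Real.exp (B * (768 * E)) := Real.one_le_exp (by positivity)
    have hP2 : 1 + 2 * P ≤ (1 + 2 * A) * Real.exp (B * (768 * E)) := by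
      rw [hP]
      linarith
    have hQE : C0 * (1 + 2 * P) ^ 2 ≤ Real.exp (C * E) := by
      have h1 : (1 + 2 * P) ^ 2 ≤ ((1 + 2 * A) * Real.exp (B * (768 * E))) ^ 2 :=
        pow_le_pow_left₀ (by linarith) hP2 2
      have h2 : C0 * (1 + 2 * P) ^ 2 ≤ Q * Real.exp (2 * (B * (768 * E))) := by
        calc C0 * (1 + 2 * P) ^ 2 ≤ C0 * ((1 + 2 * A) * Real.exp (B * (768 * E))) ^ 2 :=
              mul_le_mul_of_nonneg_left h1 (by linarith)
          _ = Q * Real.exp (2 * (B * (768 * E))) := by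
              rw [hQ, mul_pow, ← Real.exp_nat_mul]
              push_cast
              ring
      refine h2.trans ?_
      have h3 : Q = Real.exp (Real.log Q) := (Real.exp_log (by linarith)).symm
      conv_lhs => rw [h3]
      rw [← Real.exp_add]
      apply Real.exp_le_exp.2
      have h4 : Real.log Q * 1 ≤ Real.log Q * E := mul_le_mul_of_nonneg_left hE1 hlQ
      have h5 : 0 ≤ 2 * (Real.log X0 + 1) * E := by positivity
      have h6 : C * E = Real.log Q * E + 2 * (B * (768 * E)) + 2 * (Real.log X0 + 1) * E := by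
        rw [hC]
        ring
      linarith
    have hPE : 2 * P ≤ Real.exp (C * E) := by
      refine le_trans ?_ hQE
      have h1 : 1 + 2 * P ≤ (1 + 2 * P) ^ 2 := by nlinarith
      have h2 : (1 + 2 * P) ^ 2 ≤ C0 * (1 + 2 * P) ^ 2 := le_mul_of_one_le_left (by positivity) hC0
      linarith
    refine ⟨Z, fun ρ hρ => ⟨hze ρ hρ, ?_, ?_⟩, ?_, ?_⟩
    · have := (hZ ρ hρ).2.1
      linarith
    · intro h1
      have h2 := hc ρ (hze ρ hρ) (by rw [h1, abs_zero])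
      have h3 := (hZ ρ hρ).2.1
      linarith
    · have h1 : ∑ ρ ∈ Z, (analyticOrderNatAt riemannZeta ρ : ℝ) = (mul Z : ℝ) := by
        unfold mul
        push_cast
        refine Finset.sum_congr rfl fun u hu => ?_
        rw [Pool.Agent.H76.CR.zord_eq (hne u hu)]
      rw [h1]
      exact ((Nat.cast_le.2 hZN).trans hNP).trans hPE
    · have h1 : ∑ ρ ∈ Z, (analyticOrderNatAt riemannZeta ρ : ℂ) * ((x : ℂ) ^ ρ / ρ) =
          ∑ ρ ∈ Z, (zord ρ : ℂ) * ((x : ℂ) ^ ρ / ρ) := by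
        refine Finset.sum_congr rfl fun u hu => ?_
        rw [Pool.Agent.H76.CR.zord_eq (hne u hu)]
      rw [h1]
      refine hmn.trans ?_
      -- the error
      have e1 : √(Real.exp (2 * b)) = Real.exp b := by
        rw [← Real.exp_half]
        congr 1
        ring
      have e2 : x ^ (-η) * Real.exp (2 * b) ^ 2 = Real.exp (-b) := by
        rw [Real.rpow_def_of_pos hx0, ← hL, ← Real.exp_nat_mul, ← Real.exp_add]
        congr 1
        rw [hη]
        push_cast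
        field_simp
        ring
      have e3 : Real.exp (-b) = Real.exp (-D) * (Real.exp (-2) * (1 / L ^ 2)) := by
        have h2 : Real.exp (-(2 * Real.log L)) = 1 / L ^ 2 := by
          rw [Real.exp_neg, two_mul, Real.exp_add, Real.exp_log (by linarith)]
          rw [one_div]
          ring
        rw [← h2, ← Real.exp_add, ← Real.exp_add]
        congr 1
        rw [hb]
        ring
      have e4 : x / η * (L / √(Real.exp (2 * b)) + x ^ (-η) * Real.exp (2 * b) ^ 2) ≤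
          x * Real.exp (-D) := by
        rw [e1, e2]
        have h2 : L / Real.exp b = L * Real.exp (-b) := by
          rw [Real.exp_neg, div_eq_mul_inv]
        rw [h2]
        have h3 : x / η = x * (L / (5 * b)) := by
          rw [hη, div_div_eq_mul_div, mul_div_assoc]
        have h4 : L / (5 * b) ≤ L / 20 := div_le_div_of_nonneg_left hlx.le (by norm_num) (by linarith)
        have h5 : Real.exp (-2) ≤ 1 := Real.exp_le_one_iff.2 (by norm_num)
        have h6 : 0 < Real.exp (-D) := Real.exp_pos _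
        have hL0 : L ≠ 0 := hlx.ne'
        calc x / η * (L * Real.exp (-b) + Real.exp (-b)) = x * (L / (5 * b)) * ((L + 1) *
              Real.exp (-b)) := by rw [h3]; ring
          _ ≤ x * (L / 20) * ((2 * L) * Real.exp (-b)) := by
              have h7 : (L + 1) * Real.exp (-b) ≤ (2 * L) * Real.exp (-b) :=
                mul_le_mul_of_nonneg_right (by linarith) (Real.exp_pos _).le
              exact mul_le_mul (mul_le_mul_of_nonneg_left h4 hx0.le) h7 (by positivity)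
                (by positivity)
          _ = x * Real.exp (-D) * (Real.exp (-2) / 10) := by
              rw [e3]
              field_simp
              ring
          _ ≤ x * Real.exp (-D) * 1 :=
              mul_le_mul_of_nonneg_left (by linarith) (by positivity)
          _ = _ := mul_one _
      rw [← hL]
      have e5 : (1 + (N : ℝ)) ^ 2 ≤ (1 + 2 * P) ^ 2 :=
        pow_le_pow_left₀ (by positivity) (by linarith) 2
      calc C0 * (1 + (N : ℝ)) ^ 2 * (x / η) * (L / √(Real.exp (2 * b)) +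
            x ^ (-η) * Real.exp (2 * b) ^ 2)
          = C0 * (1 + (N : ℝ)) ^ 2 * (x / η * (L / √(Real.exp (2 * b)) +
            x ^ (-η) * Real.exp (2 * b) ^ 2)) := by ring
        _ ≤ C0 * (1 + (N : ℝ)) ^ 2 * (x * Real.exp (-D)) :=
            mul_le_mul_of_nonneg_left e4 (by positivity)
        _ ≤ C0 * (1 + 2 * P) ^ 2 * (x * Real.exp (-D)) := by
            refine mul_le_mul_of_nonneg_right (mul_le_mul_of_nonneg_left e5 (by linarith)) ?_
            positivity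
        _ ≤ Real.exp (C * E) * (x * Real.exp (-D)) :=
            mul_le_mul_of_nonneg_right hQE (by positivity)
        _ = x * Real.exp (C * E - D) := by
            rw [sub_eq_add_neg, Real.exp_add]
            ring

/-- the largest term of the explicit formula -/
theorem rem : ∃ κ C : ℝ, 0 < κ ∧ 0 < C ∧ ∀ x D : ℝ, 3 ≤ x → 0 ≤ D → D ≤ κ * Real.log x →
    (∀ ρ : ℂ, riemannZeta ρ = 0 → 1 / 2 ≤ ρ.re → 0 < ρ.im →
      D ≤ (1 - ρ.re) * Real.log x + Real.log ρ.im) →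
    |∑ n ∈ Finset.Icc 1 ⌊x⌋₊, ArithmeticFunction.vonMangoldt n - x| ≤
      x * Real.exp (C * (1 + D ^ (5 / 2 : ℝ) / Real.log x ^ (3 / 2 : ℝ) +
        D ^ (5 / 3 : ℝ) * Real.log (D + 3) ^ (1 / 3 : ℝ) / Real.log x) - D) := by
  obtain ⟨κ, C, hκ, hC, h⟩ := remZ
  refine ⟨κ, C + 1, hκ, by linarith, fun x D hx hD hDx hz => ?_⟩
  obtain ⟨E, hE⟩ : ∃ E : ℝ, E = 1 + D ^ (5 / 2 : ℝ) / Real.log x ^ (3 / 2 : ℝ) +
    D ^ (5 / 3 : ℝ) * Real.log (D + 3) ^ (1 / 3 : ℝ) / Real.log x := ⟨_, rfl⟩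
  have hx0 : 0 < x := by linarith
  have hlx : 0 < Real.log x := Real.log_pos (by linarith)
  have hE1 : 1 ≤ E := rem_E hlx hD hE
  obtain ⟨Z, hZ, hZm, hmn⟩ := h x D E hx hD hDx hE
  rw [← hE]
  have h1 : ‖∑ ρ ∈ Z, (analyticOrderNatAt riemannZeta ρ : ℂ) * ((x : ℂ) ^ ρ / ρ)‖ ≤
      x * Real.exp (C * E - D) := by
    have h2 : ∀ ρ ∈ Z, ‖(analyticOrderNatAt riemannZeta ρ : ℂ) * ((x : ℂ) ^ ρ / ρ)‖ ≤
        (analyticOrderNatAt riemannZeta ρ : ℝ) * (x * Real.exp (-D)) := by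
      intro ρ hρ
      obtain ⟨hz0, hre, him⟩ := hZ ρ hρ
      rw [norm_mul, Complex.norm_natCast, norm_div, Complex.norm_cpow_eq_rpow_re_of_pos hx0]
      refine mul_le_mul_of_nonneg_left ?_ (Nat.cast_nonneg _)
      have h3 : 0 < |ρ.im| := abs_pos.2 him
      have h4 : |ρ.im| ≤ ‖ρ‖ := Complex.abs_im_le_norm ρ
      have h5 : D ≤ (1 - ρ.re) * Real.log x + Real.log |ρ.im| := by
        rcases lt_or_gt_of_ne him with h6 | h6
        · have h7 := hz ((starRingEnd ℂ) ρ) (Pool.Agent.H76.PS.zeta_conj_zero hz0)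
            (by rw [Complex.conj_re]; linarith) (by rw [Complex.conj_im]; linarith)
          rw [Complex.conj_re, Complex.conj_im] at h7
          rw [abs_of_neg h6]
          exact h7
        · rw [abs_of_pos h6]
          exact hz ρ hz0 hre.le h6
      calc x ^ ρ.re / ‖ρ‖ ≤ x ^ ρ.re / |ρ.im| :=
            div_le_div_of_nonneg_left (Real.rpow_nonneg hx0.le _) h3 h4
        _ = x * Real.exp (-((1 - ρ.re) * Real.log x + Real.log |ρ.im|)) := by
            rw [neg_add, Real.exp_add, Real.exp_neg (Real.log _), Real.exp_log h3,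
              Real.rpow_def_of_pos hx0, ← div_eq_mul_inv, mul_div_assoc']
            congr 1
            nth_rewrite 2 [← Real.exp_log hx0]
            rw [← Real.exp_add]
            congr 1
            ring
        _ ≤ x * Real.exp (-D) :=
            mul_le_mul_of_nonneg_left (Real.exp_le_exp.2 (by linarith)) hx0.le
    refine (norm_sum_le _ _).trans ((Finset.sum_le_sum h2).trans ?_)
    rw [← Finset.sum_mul]
    calc _ ≤ Real.exp (C * E) * (x * Real.exp (-D)) :=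
          mul_le_mul_of_nonneg_right hZm (by positivity)
      _ = _ := by
          rw [sub_eq_add_neg, Real.exp_add]
          ring
  have h3 : |∑ n ∈ Finset.Icc 1 ⌊x⌋₊, ArithmeticFunction.vonMangoldt n - x| =
      ‖((∑ n ∈ Finset.Icc 1 ⌊x⌋₊, ArithmeticFunction.vonMangoldt n : ℝ) : ℂ) - x‖ := by
    rw [← Complex.ofReal_sub, Complex.norm_real, Real.norm_eq_abs]
  rw [h3]
  have h4 := norm_sub_le (((∑ n ∈ Finset.Icc 1 ⌊x⌋₊, ArithmeticFunction.vonMangoldt n : ℝ) : ℂ) -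
    x + ∑ ρ ∈ Z, (analyticOrderNatAt riemannZeta ρ : ℂ) * ((x : ℂ) ^ ρ / ρ))
    (∑ ρ ∈ Z, (analyticOrderNatAt riemannZeta ρ : ℂ) * ((x : ℂ) ^ ρ / ρ))
  rw [add_sub_cancel_right] at h4
  have h5 : 2 * Real.exp (C * E - D) ≤ Real.exp ((C + 1) * E - D) := by
    have h6 : (C + 1) * E - D = E + (C * E - D) := by ring
    rw [h6, Real.exp_add]
    refine mul_le_mul_of_nonneg_right ?_ (Real.exp_pos _).le
    have := Real.add_one_le_exp E
    linarith
  have h6 := mul_le_mul_of_nonneg_left h5 hx0.le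
  linarith

/-- the size of the exponent in the Vinogradov-Korobov range -/
private theorem rem_K {K L D : ℝ} (hK : 0 < K) (hL : 1 ≤ L) (hl : 2 / 25 ≤ Real.log L) (hD : 0 ≤ D)
    (hDw : D ≤ K * (L ^ (3 / 5 : ℝ) / Real.log L ^ (1 / 5 : ℝ))) :
    D ≤ 2 * K * L ^ (3 / 5 : ℝ) ∧
    1 + D ^ (5 / 2 : ℝ) / L ^ (3 / 2 : ℝ) + D ^ (5 / 3 : ℝ) * Real.log (D + 3) ^ (1 / 3 : ℝ) / L ≤
      1 + K ^ (5 / 2 : ℝ) * (25 / 2) + K ^ (5 / 3 : ℝ) * (2 + 25 / 2 * Real.log (2 * K + 3)) := by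
  have hL0 : 0 < L := by linarith
  have hl0 : 0 < Real.log L := by linarith
  obtain ⟨l, hld⟩ : ∃ l : ℝ, l = Real.log L := ⟨_, rfl⟩
  rw [← hld] at hl hl0 hDw
  obtain ⟨w, hw⟩ : ∃ w : ℝ, w = L ^ (3 / 5 : ℝ) / l ^ (1 / 5 : ℝ) := ⟨_, rfl⟩
  rw [← hw] at hDw
  have hl5 : 0 < l ^ (1 / 5 : ℝ) := Real.rpow_pos_of_pos hl0 _
  have hw0 : 0 < w := by rw [hw]; exact div_pos (Real.rpow_pos_of_pos hL0 _) hl5
  have hl12 : 1 / 2 ≤ l ^ (1 / 5 : ℝ) := by
    have h1 : (1 / 2 : ℝ) = ((1 / 2 : ℝ) ^ 5) ^ (1 / 5 : ℝ) := by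
      rw [← Real.rpow_natCast, ← Real.rpow_mul (by norm_num)]
      norm_num
    rw [h1]
    exact Real.rpow_le_rpow (by norm_num) (by norm_num; linarith) (by norm_num)
  have hw2 : w ≤ 2 * L ^ (3 / 5 : ℝ) := by
    rw [hw, div_le_iff₀ hl5]
    have : 0 ≤ L ^ (3 / 5 : ℝ) := Real.rpow_nonneg hL0.le _
    nlinarith
  have hD2 : D ≤ 2 * K * L ^ (3 / 5 : ℝ) := by
    calc D ≤ K * w := hDw
      _ ≤ K * (2 * L ^ (3 / 5 : ℝ)) := mul_le_mul_of_nonneg_left hw2 hK.le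
      _ = _ := by ring
  have hL35 : L ^ (3 / 5 : ℝ) ≤ L := by
    conv_rhs => rw [← Real.rpow_one L]
    exact Real.rpow_le_rpow_of_exponent_le hL (by norm_num)
  have hKlog : 0 ≤ Real.log (2 * K + 3) := Real.log_nonneg (by linarith)
  refine ⟨hD2, ?_⟩
  have e1 : D ^ (5 / 2 : ℝ) / L ^ (3 / 2 : ℝ) ≤ K ^ (5 / 2 : ℝ) * (25 / 2) := by
    have hL32 : 0 < L ^ (3 / 2 : ℝ) := Real.rpow_pos_of_pos hL0 _
    rw [div_le_iff₀ hL32]
    have h1 : D ^ (5 / 2 : ℝ) ≤ K ^ (5 / 2 : ℝ) * w ^ (5 / 2 : ℝ) := by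
      rw [← Real.mul_rpow hK.le hw0.le]
      exact Real.rpow_le_rpow hD hDw (by norm_num)
    have h2 : w ^ (5 / 2 : ℝ) = L ^ (3 / 2 : ℝ) / l ^ (1 / 2 : ℝ) := by
      rw [hw, Real.div_rpow (Real.rpow_nonneg hL0.le _) hl5.le, ← Real.rpow_mul hL0.le,
        ← Real.rpow_mul hl0.le]
      norm_num
    have h3 : 2 / 25 ≤ l ^ (1 / 2 : ℝ) := by
      rcases le_total l 1 with h | h
      · calc (2 / 25 : ℝ) ≤ l := hl
          _ = l ^ (1 : ℝ) := (Real.rpow_one l).symm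
          _ ≤ l ^ (1 / 2 : ℝ) := Real.rpow_le_rpow_of_exponent_ge hl0 h (by norm_num)
      · have := Real.one_le_rpow h (by norm_num : (0 : ℝ) ≤ 1 / 2)
        linarith
    have h4 : L ^ (3 / 2 : ℝ) / l ^ (1 / 2 : ℝ) ≤ L ^ (3 / 2 : ℝ) * (25 / 2) := by
      rw [div_le_iff₀ (by linarith)]
      have : 1 ≤ 25 / 2 * l ^ (1 / 2 : ℝ) := by linarith
      calc L ^ (3 / 2 : ℝ) = L ^ (3 / 2 : ℝ) * 1 := (mul_one _).symm
        _ ≤ L ^ (3 / 2 : ℝ) * (25 / 2 * l ^ (1 / 2 : ℝ)) := mul_le_mul_of_nonneg_left this hL32.le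
        _ = _ := by ring
    have hK52 : 0 ≤ K ^ (5 / 2 : ℝ) := Real.rpow_nonneg hK.le _
    calc D ^ (5 / 2 : ℝ) ≤ K ^ (5 / 2 : ℝ) * (L ^ (3 / 2 : ℝ) / l ^ (1 / 2 : ℝ)) := by
          rw [← h2]; exact h1
      _ ≤ K ^ (5 / 2 : ℝ) * (L ^ (3 / 2 : ℝ) * (25 / 2)) := mul_le_mul_of_nonneg_left h4 hK52
      _ = _ := by ring
  have e2 : D ^ (5 / 3 : ℝ) * Real.log (D + 3) ^ (1 / 3 : ℝ) / L ≤
      K ^ (5 / 3 : ℝ) * (2 + 25 / 2 * Real.log (2 * K + 3)) := by
    rw [div_le_iff₀ hL0]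
    have h1 : D ^ (5 / 3 : ℝ) ≤ K ^ (5 / 3 : ℝ) * w ^ (5 / 3 : ℝ) := by
      rw [← Real.mul_rpow hK.le hw0.le]
      exact Real.rpow_le_rpow hD hDw (by norm_num)
    have h2 : w ^ (5 / 3 : ℝ) = L / l ^ (1 / 3 : ℝ) := by
      rw [hw, Real.div_rpow (Real.rpow_nonneg hL0.le _) hl5.le, ← Real.rpow_mul hL0.le,
        ← Real.rpow_mul hl0.le]
      norm_num
    have h3 : Real.log (D + 3) ≤ Real.log (2 * K + 3) + l := by
      have h4 : D + 3 ≤ (2 * K + 3) * L := by nlinarith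
      have h5 := Real.log_le_log (by linarith) h4
      rwa [Real.log_mul (by linarith) hL0.ne', ← hld] at h5
    have h6 : Real.log (D + 3) ≤ (1 + 25 / 2 * Real.log (2 * K + 3)) * l := by
      have : Real.log (2 * K + 3) ≤ 25 / 2 * Real.log (2 * K + 3) * l := by
        have : 1 ≤ 25 / 2 * l := by linarith
        nlinarith
      linarith
    have hg1 : 1 ≤ 1 + 25 / 2 * Real.log (2 * K + 3) := by linarith
    have h7 : Real.log (D + 3) ^ (1 / 3 : ℝ) ≤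
        (1 + 25 / 2 * Real.log (2 * K + 3)) * l ^ (1 / 3 : ℝ) := by
      calc Real.log (D + 3) ^ (1 / 3 : ℝ) ≤ ((1 + 25 / 2 * Real.log (2 * K + 3)) * l) ^ (1 / 3 : ℝ) :=
            Real.rpow_le_rpow (Real.log_nonneg (by linarith)) h6 (by norm_num)
        _ = (1 + 25 / 2 * Real.log (2 * K + 3)) ^ (1 / 3 : ℝ) * l ^ (1 / 3 : ℝ) :=
            Real.mul_rpow (by linarith) hl0.le
        _ ≤ _ := by
            refine mul_le_mul_of_nonneg_right ?_ (Real.rpow_nonneg hl0.le _)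
            conv_rhs => rw [← Real.rpow_one (1 + 25 / 2 * Real.log (2 * K + 3))]
            exact Real.rpow_le_rpow_of_exponent_le hg1 (by norm_num)
    have hK53 : 0 ≤ K ^ (5 / 3 : ℝ) := Real.rpow_nonneg hK.le _
    have hl3 : 0 < l ^ (1 / 3 : ℝ) := Real.rpow_pos_of_pos hl0 _
    calc D ^ (5 / 3 : ℝ) * Real.log (D + 3) ^ (1 / 3 : ℝ)
        ≤ (K ^ (5 / 3 : ℝ) * w ^ (5 / 3 : ℝ)) *
            ((1 + 25 / 2 * Real.log (2 * K + 3)) * l ^ (1 / 3 : ℝ)) :=
          mul_le_mul h1 h7 (Real.rpow_nonneg (Real.log_nonneg (by linarith)) _) (by positivity)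
      _ = K ^ (5 / 3 : ℝ) * (1 + 25 / 2 * Real.log (2 * K + 3)) * L := by
          rw [h2]
          field_simp
      _ ≤ _ := by
          refine mul_le_mul_of_nonneg_right (mul_le_mul_of_nonneg_left (by linarith) hK53) hL0.le
  linarith

/-- the Vinogradov-Korobov range -/
theorem remK (K : ℝ) (hK : 0 < K) : ∃ C : ℝ, 0 < C ∧ ∀ x D : ℝ, 3 ≤ x → 0 ≤ D →
    D ≤ K * (Real.log x ^ (3 / 5 : ℝ) / Real.log (Real.log x) ^ (1 / 5 : ℝ)) →
    (∀ ρ : ℂ, riemannZeta ρ = 0 → 1 / 2 ≤ ρ.re → 0 < ρ.im →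
      D ≤ (1 - ρ.re) * Real.log x + Real.log ρ.im) →
    |∑ n ∈ Finset.Icc 1 ⌊x⌋₊, ArithmeticFunction.vonMangoldt n - x| ≤ C * x * Real.exp (-D) := by
  obtain ⟨κ, C, hκ, hC, h⟩ := rem
  obtain ⟨G, hG⟩ : ∃ G : ℝ, G = 1 + K ^ (5 / 2 : ℝ) * (25 / 2) +
    K ^ (5 / 3 : ℝ) * (2 + 25 / 2 * Real.log (2 * K + 3)) := ⟨_, rfl⟩
  obtain ⟨Y, hY⟩ : ∃ Y : ℝ, Y = (2 * K / κ) ^ (5 / 2 : ℝ) := ⟨_, rfl⟩
  have hY0 : 0 ≤ Y := by rw [hY]; positivity
  refine ⟨Real.exp (C * G) + Real.exp (Y + 2 * K * Y), by positivity, ?_⟩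
  intro x D hx hD hDw hz
  have hx0 : 0 < x := by linarith
  obtain ⟨hl1, hl2⟩ := loglog3 hx
  obtain ⟨L, hL⟩ : ∃ L : ℝ, L = Real.log x := ⟨_, rfl⟩
  rw [← hL] at hDw hl1 hl2
  obtain ⟨hD2, hE⟩ := rem_K hK hl1 hl2 hD hDw
  have hL0 : 0 < L := by linarith
  rcases le_total Y L with hYL | hYL
  · have h1 : D ≤ κ * L := by
      refine hD2.trans ?_
      have h2 : 2 * K / κ ≤ L ^ (2 / 5 : ℝ) := by
        have h3 : 2 * K / κ = Y ^ (2 / 5 : ℝ) := by
          rw [hY, ← Real.rpow_mul (by positivity)]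
          norm_num
        rw [h3]
        exact Real.rpow_le_rpow hY0 hYL (by norm_num)
      rw [div_le_iff₀ hκ] at h2
      have h4 : L = L ^ (2 / 5 : ℝ) * L ^ (3 / 5 : ℝ) := by
        rw [← Real.rpow_add hL0]
        norm_num
      calc 2 * K * L ^ (3 / 5 : ℝ) ≤ L ^ (2 / 5 : ℝ) * κ * L ^ (3 / 5 : ℝ) :=
            mul_le_mul_of_nonneg_right h2 (Real.rpow_nonneg hL0.le _)
        _ = κ * (L ^ (2 / 5 : ℝ) * L ^ (3 / 5 : ℝ)) := by ring
        _ = κ * L := by rw [← h4]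
    rw [hL] at h1
    refine (h x D hx hD h1 hz).trans ?_
    rw [← hL, sub_eq_add_neg, Real.exp_add, ← hG] at *
    have h5 : Real.exp (C * (1 + D ^ (5 / 2 : ℝ) / L ^ (3 / 2 : ℝ) +
        D ^ (5 / 3 : ℝ) * Real.log (D + 3) ^ (1 / 3 : ℝ) / L)) ≤
        Real.exp (C * G) + Real.exp (Y + 2 * K * Y) := by
      have h6 := Real.exp_le_exp.2 (mul_le_mul_of_nonneg_left hE hC.le)
      have h7 := Real.exp_pos (Y + 2 * K * Y)
      linarith
    have h8 := mul_le_mul_of_nonneg_right h5 (by positivity : 0 ≤ x * Real.exp (-D))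
    linarith
  · have h1 : |∑ n ∈ Finset.Icc 1 ⌊x⌋₊, ArithmeticFunction.vonMangoldt n - x| ≤
        x * (Real.log x + 1) := by
      have := rem_triv (by linarith : 1 ≤ x)
      rwa [← Complex.ofReal_sub, Complex.norm_real, Real.norm_eq_abs] at this
    refine h1.trans ?_
    rw [← hL]
    have h2 : L + 1 ≤ Real.exp Y := by
      have := Real.add_one_le_exp Y
      linarith
    have h3 : D ≤ 2 * K * Y := by
      refine hD2.trans ?_
      have : L ^ (3 / 5 : ℝ) ≤ L := by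
        conv_rhs => rw [← Real.rpow_one L]
        exact Real.rpow_le_rpow_of_exponent_le hl1 (by norm_num)
      exact mul_le_mul_of_nonneg_left (this.trans hYL) (by linarith)
    have h4 : Real.exp Y ≤ Real.exp (Y + 2 * K * Y) * Real.exp (-D) := by
      rw [← Real.exp_add]
      exact Real.exp_le_exp.2 (by linarith)
    have h5 : 0 < Real.exp (C * G) * x * Real.exp (-D) := by positivity
    have h6 : x * (L + 1) ≤ x * (Real.exp (Y + 2 * K * Y) * Real.exp (-D)) :=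
      mul_le_mul_of_nonneg_left (h2.trans h4) hx0.le
    linarith

end Pool.Agent.H76.RM
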